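import Pool.Agent.helper35.BQ.Spec2

set_option autoImplicit false

namespace Pool.Agent.BQ

open Pool.Agent.helper58.DC Pool.Agent.DI Pool.Agent.DR Pool.Agent.NQ

/-- row bq:OUT -/
theorem OUT (hCEG : CEG_stmt) (hNRM : NRM_stmt) (hKEY : KEY_stmt) (hPCM : PCM_stmt) (hRB : RB_stmt)
    (hTI : TI_stmt) (hIM : IM_stmt) : OUT_stmt := by
  classical
  intro G E A _ _ _ _ _ X p _ M hM hp hOp hPC χ hχ
  have hAf : Finite A := Finite.of_surjective X.proj X.proj_surjective
  have hMf : Finite (MulAut G) := Finite.of_injective (fun α : MulAut G => (α : G → G)) DFunLike.coe_injective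
  have htop : nrm ({⊥} : Finset (Subgroup G)) = ⊤ := by
    rw [eq_top_iff]
    unfold nrm
    refine le_iInf fun Q => le_iInf fun hQ => ?_
    rw [Finset.mem_singleton] at hQ
    rw [hQ]
    intro x _
    rw [Subgroup.mem_normalizer_iff]
    intro h
    simp
  have hrad : IsRadical p ({⊥} : Finset (Subgroup G)) := by
    rw [hRB G p hOp]
    refine ⟨?_, Finset.mem_singleton_self _, ?_⟩
    · intro P hP Q hQ hPQ
      rw [Finset.mem_coe, Finset.mem_singleton] at hP hQ
      exact absurd (hP.trans hQ.symm) hPQ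
    · intro P hP
      rw [Finset.mem_singleton] at hP
      subst hP
      refine ⟨IsPGroup.of_bot, ?_⟩
      have h1 : ({⊥} : Finset (Subgroup G)).filter (· ≤ ⊥) = {⊥} := by
        ext Q
        simp
      rw [h1, htop]
      exact hOp
  have hle : AI X M χ ≤ AB X M χ := by
    have h1 : χ ∈ IrrOn (nrm ({⊥} : Finset (Subgroup G))) := by
      rw [htop]
      exact (hTI G χ).2 hχ
    refine (hKEY G E A X p M hM hp χ hχ {⊥} hrad χ h1 (hIM G M χ χ χ).1).trans ?_
    rintro _ ⟨e, he, rfl⟩
    refine ⟨e, rfl, ?_⟩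
    have h2 : funMap (X.act e) χ = χ := he.2
    rw [h2]
    exact (hIM G M χ χ χ).1
  refine hPCM p E A (MulAut G) X.proj X.act (AI X M χ) (AB X M χ) (MulAut.conj : G →* MulAut G).range hle
    (fun v hv w hw => hNRM G E A X M χ hχ v hv w hw) ?_ hPC ?_
  · rw [MonoidHom.range_eq_top.2 X.proj_surjective]
    exact le_top
  · intro t _ ht
    obtain ⟨g, hg⟩ := ht
    have h1 : X.act (X.inc g) = MulAut.conj g := by
      ext h
      apply X.inc_injective
      rw [X.act_spec, MulAut.conj_apply, map_mul, map_mul, map_inv]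
    have h2 : X.act (t * (X.inc g)⁻¹) = 1 := by
      rw [map_mul, map_inv, h1, hg, mul_inv_cancel]
    have h3 : X.proj (t * (X.inc g)⁻¹) = X.proj t := by
      rw [map_mul, map_inv, (X.exact _).2 ⟨g, rfl⟩, inv_one, mul_one]
    rw [← h3]
    refine Subgroup.subset_closure ⟨t * (X.inc g)⁻¹, rfl, ?_⟩
    refine hCEG G E A X p M hM hp χ hχ _ fun g' => ?_
    rw [h2]
    rfl

end Pool.Agent.BQ
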