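import Pool.Agent.helper28.BQ.SpecK
import Pool.Agent.helper28.BQ.SpecN

/-!
# BQ, module NS: one summand of a nonvanishing pairing is nonvanishing on a subgroup
-/

open scoped BigOperators ComplexConjugate Matrix Topology
open MeasureTheory Filter

namespace BQ

/-- product of two invariant 2-forms is an invariant density -/
theorem NS_density {t : ℝ} {G : Subgroup (Matrix.SpecialLinearGroup (Fin 3) ℂ)}
    {f h : (Fin 2 → ℂ) → ℂ} (hf : ∀ g ∈ G, Inv2 t g f) (hh : ∀ g ∈ G, Inv2 t g h) :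
    ∀ g ∈ G, ∀ z ∈ Ball t, (f (mob g z) * conj (h (mob g z))) *
      (‖(fderiv ℂ (mob g) z).det‖ ^ 2 : ℝ) = f z * conj (h z) := by
  intro g hg z hz
  have h1 := hf g hg z hz
  have h2 := hh g hg z hz
  have h3 : ((‖(fderiv ℂ (mob g) z).det‖ ^ 2 : ℝ) : ℂ) =
      (fderiv ℂ (mob g) z).det * conj ((fderiv ℂ (mob g) z).det) := by
    rw [Complex.mul_conj, Complex.normSq_eq_norm_sq]
  rw [h3, ← h1, ← h2, map_mul]
  ring

theorem NS_isFD_integrable {t : ℝ} {D K : Set (Fin 2 → ℂ)} (hK : IsCompact K) (hKB : K ⊆ Ball t)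
    (hDK : D ⊆ K) {u : (Fin 2 → ℂ) → ℂ} (hu : ContinuousOn u (Ball t)) : IntegrableOn u D :=
  ((hu.mono hKB).integrableOn_compact hK).mono_set hDK

theorem NS (hXD : XD_stmt) (hIV : IV_stmt) (hIX : IX_stmt) (hCN : CN_stmt) (hKS : KS_stmt) :
    NS_stmt := by
  intro t G G' ht hU hDisc hFree hCo hle hidx n f h k hfc hkc hfi hhi hki hsum hD
  obtain ⟨D0, hD0, hne⟩ := hD
  have hcount : (G : Set (Matrix.SpecialLinearGroup (Fin 3) ℂ)).Countable := hCN t G ht hU hDisc
  have hU' : Unitary3 t G' := fun g hg => hU g (hle hg)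
  have hDisc' : Disc t G' := fun K hK hKB => (hDisc K hK hKB).subset
    (fun g hg => ⟨hle hg.1, hg.2⟩)
  have hFree' : ActsFreely t G' := fun g hg => hFree g (hle hg)
  have hCo' : Cocompact t G' := hKS t G G' ht hU hle hidx hCo
  have hcount' : (G' : Set (Matrix.SpecialLinearGroup (Fin 3) ℂ)).Countable :=
    hcount.mono (fun g hg => hle hg)
  have hhc : ContinuousOn h (Ball t) := by
    have h1 : ContinuousOn (fun z => ∑ j, k j z) (Ball t) :=
      continuousOn_finsetSum _ (fun j _ => hkc j)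
    exact h1.congr hsum
  obtain ⟨D1, K1, hD1, hK1, hK1B, hD1K⟩ := hXD t G ht hU hDisc hFree hCo
  obtain ⟨D2, K2, hD2, hK2, hK2B, hD2K⟩ := hXD t G' ht hU' hDisc' hFree' hCo'
  have huc : ContinuousOn (fun z => f z * conj (h z)) (Ball t) :=
    hfc.mul (Complex.continuous_conj.comp_continuousOn hhc)
  have hudens := NS_density hfi hhi
  have e1 : ∫ z in D0, f z * conj (h z) = ∫ z in D1, f z * conj (h z) :=
    (hIV t G ht hU hcount hFree _ huc hudens D0 D1 hD0 hD1).2
  have hint1 : IntegrableOn (fun z => f z * conj (h z)) D1 :=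
    NS_isFD_integrable hK1 hK1B hD1K huc
  obtain ⟨hint2, e2⟩ := hIX t G G' ht hU hcount hFree hle hidx _ huc hudens D1 D2 hD1 hD2 hint1
  have hne2 : ∫ z in D2, f z * conj (h z) ≠ 0 := by
    rw [e2, ← e1]
    exact mul_ne_zero (Nat.cast_ne_zero.mpr hidx) hne
  have hkuc : ∀ j, ContinuousOn (fun z => f z * conj (k j z)) (Ball t) := fun j =>
    hfc.mul (Complex.continuous_conj.comp_continuousOn (hkc j))
  have hkint : ∀ j, IntegrableOn (fun z => f z * conj (k j z)) D2 := fun j =>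
    NS_isFD_integrable hK2 hK2B hD2K (hkuc j)
  have e3 : ∫ z in D2, f z * conj (h z) = ∑ j, ∫ z in D2, f z * conj (k j z) := by
    rw [← integral_finsetSum _ (fun j _ => hkint j)]
    refine setIntegral_congr_fun hD2.1 (fun z hz => ?_)
    have hz' : z ∈ Ball t := hD2.2.1 hz
    simp only [hsum z hz', map_sum, Finset.mul_sum]
  rw [e3] at hne2
  obtain ⟨j, -, hj⟩ := Finset.exists_ne_zero_of_sum_ne_zero hne2
  refine ⟨j, fun D hD => ?_⟩
  have hfi' : ∀ g ∈ G', Inv2 t g f := fun g hg => hfi g (hle hg)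
  obtain ⟨h4, h5⟩ := hIV t G' ht hU' hcount' hFree' _ (hkuc j) (NS_density hfi' (hki j)) D2 D hD2 hD
  exact ⟨h4 (hkint j), by rw [← h5]; exact hj⟩

end BQ
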